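import Mathlib
import Pool.Agent.Y555.Mag.Fin

/-!
Let `F` be a field of characteristic zero and `E₅` the algebra of the lower triangular `5 × 5`
matrices over `F` whose first and last diagonal entries are equal. **No** variety of associative
algebras over `F` (unital or not) which satisfies a nontrivial identity and contains `E₅` is
Magnus: it has a two-generated algebra with one relation and undecidable word problem. The
varieties generated by the `n × n` matrices (`n ≥ 4`) and the varieties defined by the standard
identities `s_n` (`n ≥ 8`) are special cases.

Idea of the proof. In the algebra of differential operators generated by the multiplication by `z`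
and by `P ∂`, `P = z (z - 1) ⋯ (z - R)`, no nonzero polynomial is an identity: with
`y_i = z h_i(P ∂)` for suitable interpolation polynomials `h_i` only one of the shortest words of
the polynomial has a nonzero leading symbol. So if an algebra satisfies a nontrivial identity and
the relation `P(z) + z Θ - Θ z = 0`, then `P(z)` is nilpotent, with an exponent which depends only
on the identity and on `R`. The rest is the simulation of generalised Collatz maps of the earlier
results `MnNotMagnus` and `SnNotMagnus` of this repository.
-/

namespace Pool.Agent.Results.MP_7596fa_lc.PIVarieties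

/-- The ideal of the noncommutative polynomials without constant term. -/
def noConst (F : Type*) [Field F] (k : ℕ) : TwoSidedIdeal (FreeAlgebra F (Fin k)) :=
  TwoSidedIdeal.span (Set.range (FreeAlgebra.ι F : Fin k → FreeAlgebra F (Fin k)))

/-- The values of the noncommutative polynomials of the set `T` (in countably many variables) on
the free algebra of rank `k`; for `unital = false` only the values on elements without constant
term. -/
def values (F : Type*) [Field F] (T : Set (FreeAlgebra F ℕ)) (k : ℕ) (unital : Bool) :
    Set (FreeAlgebra F (Fin k)) :=
  {p | ∃ r ∈ T, ∃ y : ℕ → FreeAlgebra F (Fin k), (unital = false → ∀ i, y i ∈ noConst F k) ∧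
    p = FreeAlgebra.lift F y r}

/-- The relatively free algebra of rank `k` in the variety with the identities `T`: the free
associative algebra modulo the ideal generated by the values of `T`. For `unital = false` this is
the relatively free algebra of the variety of all (not necessarily unital) algebras with the
identities `T`, with a unit adjoined; for `unital = true` it is the relatively free algebra of
the variety of unital algebras. -/
abbrev RelFree (F : Type*) [Field F] (T : Set (FreeAlgebra F ℕ)) (k : ℕ) (unital : Bool) :=
  (TwoSidedIdeal.span (values F T k unital)).ringCon.Quotient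

/-- The free generators of the relatively free algebra. -/
def gen (F : Type*) [Field F] (T : Set (FreeAlgebra F ℕ)) (k : ℕ) (unital : Bool) (i : Fin k) :
    RelFree F T k unital :=
  (TwoSidedIdeal.span (values F T k unital)).ringCon.mk' (FreeAlgebra.ι F i)

/-- A noncommutative polynomial with integer coefficients and zero constant term is given as a
finite list of signed nonempty words `± x_i x_j ⋯` (the first letter and the list of the other
letters); this is its value in the relatively free algebra. -/
def value (F : Type*) [Field F] (T : Set (FreeAlgebra F ℕ)) (k : ℕ) (unital : Bool)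
    (g : List (Bool × Fin k × List (Fin k))) : RelFree F T k unital :=
  (g.map fun t => (if t.1 then 1 else -1) *
    (gen F T k unital t.2.1 * (t.2.2.map (gen F T k unital)).prod)).sum

/-- The algebra `E₅` of the lower triangular `5 × 5` matrices with equal first and last diagonal
entry. -/
def E5 (F : Type*) [Field F] : Set (Matrix (Fin 5) (Fin 5) F) :=
  {A | (∀ i j, i < j → A i j = 0) ∧ A 0 0 = A 4 4}

/-- `r` is an identity of the algebra formed by the elements of `S`. -/
def Identity {F B : Type*} [Field F] [Ring B] [Algebra F B] (S : Set B) (r : FreeAlgebra F ℕ) :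
    Prop :=
  ∀ a : ℕ → B, (∀ i, a i ∈ S) → FreeAlgebra.lift F a r = 0

/-- The standard polynomial `s_n = ∑_σ sgn(σ) x_{σ(1)} ⋯ x_{σ(n)}`. -/
def standard (F : Type*) [Field F] (n : ℕ) : FreeAlgebra F ℕ :=
  ∑ σ : Equiv.Perm (Fin n),
    Equiv.Perm.sign σ • (List.ofFn fun i => FreeAlgebra.ι F ((σ i : Fin n) : ℕ)).prod

theorem tri_of_mem {F : Type*} [Field F] {A : Matrix (Fin 5) (Fin 5) F} (h : A ∈ E5 F) :
    Pool.Agent.H682R2.StdTri.Tri A :=
  ⟨fun i j hij => h.1 i j (by simpa using hij), h.2⟩

theorem mem_of_tri {F : Type*} [Field F] {A : Matrix (Fin 5) (Fin 5) F}
    (h : Pool.Agent.H682R2.StdTri.Tri A) : A ∈ E5 F :=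
  ⟨fun i j hij => h.low i j (by simpa using hij), h.eq⟩

/-- **Main theorem.** Let `F` be a field of characteristic zero.
(1) Let `T` be a set of identities of `E₅` which contains a nonzero polynomial. There is an
element `f` of the relatively free algebra of rank 2 of the variety (of all, or of all unital
associative algebras) defined by `T`, lying in the ideal generated by the free generators, such
that the word problem of the algebra with the one relation `f = 0` is undecidable: there is no
algorithm which decides, for a noncommutative polynomial `g` with integer coefficients and no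
constant term, whether its value lies in the two-sided ideal generated by `f`.
(2) For `n ≥ 4` all identities of the `n × n` matrices over `F` are identities of `E₅`, and for
`n ≥ 8` the standard polynomial `s_n` is an identity of `E₅`; so (1) applies to `M(n)`, `n ≥ 4`,
and to `S(n)`, `n ≥ 8`. -/
theorem result (F : Type*) [Field F] [CharZero F] :
    (∀ T : Set (FreeAlgebra F ℕ), (∃ r ∈ T, r ≠ 0) → (∀ r ∈ T, Identity (E5 F) r) →
      ∀ unital : Bool, ∃ f : RelFree F T 2 unital,
        f ∈ TwoSidedIdeal.span (Set.range (gen F T 2 unital)) ∧
        ¬ ComputablePred fun g : List (Bool × Fin 2 × List (Fin 2)) =>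
            value F T 2 unital g ∈ TwoSidedIdeal.span {f}) ∧
    (∀ n : ℕ, 4 ≤ n → ∀ r : FreeAlgebra F ℕ,
      Identity (Set.univ : Set (Matrix (Fin n) (Fin n) F)) r → Identity (E5 F) r) ∧
    (∀ n : ℕ, 8 ≤ n → Identity (E5 F) (standard F n)) := by
  refine ⟨fun T h1 h2 unital => ?_, fun n hn r hr A hA => ?_, fun n hn A hA => ?_⟩
  · exact Pool.Agent.Y555.Mag.Fin.main F T h1
      (fun r hr A hA => h2 r hr A fun i => mem_of_tri (hA i)) unital
  · exact Pool.Agent.Y555.Mag.Ext.tri_of_mat hn r (fun B => hr B fun _ => Set.mem_univ _) A
      fun i => tri_of_mem (hA i)
  · have h1 := Pool.Agent.H682R2.StdNil.std_map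
      (FreeAlgebra.lift F A : FreeAlgebra F ℕ →ₐ[F] Matrix (Fin 5) (Fin 5) F).toRingHom
      (fun i : Fin n => FreeAlgebra.ι F (i : ℕ))
    refine h1.trans ?_
    refine Pool.Agent.H682R2.StdTri.std_tri hn _ fun i => ?_
    have h2 : (FreeAlgebra.lift F A : FreeAlgebra F ℕ →ₐ[F] Matrix (Fin 5) (Fin 5) F).toRingHom
        (FreeAlgebra.ι F (i : ℕ)) = A i := FreeAlgebra.lift_ι_apply _ _
    rw [h2]
    exact tri_of_mem (hA i)

end Pool.Agent.Results.MP_7596fa_lc.PIVarieties
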